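import Pool.Agent.helper80.SV.Spec

/-!
# Project sv: RES
-/

set_option autoImplicit false
set_option linter.unusedSectionVars false

namespace Pool.Agent.SV

open MvPolynomial Module

section
variable {E P J : Type} [AddCommGroup E] [Module ℂ E] [Module.Finite ℂ E] [AddCommGroup P]
  [Module ℂ P] [Finite J]

/-- all conditions together -/
noncomputable def RES_B (Φ : Bool → P → E →ₗ[ℂ] (J → ℂ)) {a b : ℕ}
    (Z : (Fin a → P) × (Fin b → P)) : E →ₗ[ℂ] ((Fin a ⊕ Fin b) × J → ℂ) :=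
  LinearMap.pi fun x => LinearMap.proj x.2 ∘ₗ
    (Sum.elim (fun i => Φ true (Z.1 i)) (fun i => Φ false (Z.2 i)) x.1)

theorem RES_ker (Φ : Bool → P → E →ₗ[ℂ] (J → ℂ)) {a b : ℕ} (Z : (Fin a → P) × (Fin b → P)) :
    LinearMap.ker (RES_B Φ Z) = Ker Φ Z.1 Z.2 := by
  ext v
  rw [mem_Ker, LinearMap.mem_ker]
  constructor
  · intro h
    refine ⟨fun i => ?_, fun i => ?_⟩
    · funext j
      exact congrFun h (Sum.inl i, j)
    · funext j
      exact congrFun h (Sum.inr i, j)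
  · rintro ⟨h1, h2⟩
    funext ⟨x, j⟩
    rcases x with i | i
    · exact congrFun (h1 i) j
    · exact congrFun (h2 i) j

theorem RES_gen (hGKR : GKR_stmt) (Φ : Bool → P → E →ₗ[ℂ] (J → ℂ)) (hΦ : LinePoly Φ) {a b : ℕ}
    (k : ℕ) (h : ∃ (x : Fin a → P) (y : Fin b → P), finrank ℂ (Ker Φ x y) ≤ k) :
    Gen (fun Z : (Fin a → P) × (Fin b → P) => finrank ℂ (Ker Φ Z.1 Z.2) ≤ k) := by
  have := hGKR (RES_B Φ (a := a) (b := b)) (by
    rintro Z₀ Z₁ v ⟨x, j⟩
    rcases x with i | i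
    · exact hΦ true (Z₀.1 i) (Z₁.1 i) v j
    · exact hΦ false (Z₀.2 i) (Z₁.2 i) v j) k (by
      obtain ⟨x, y, hxy⟩ := h
      exact ⟨(x, y), by rw [RES_ker]; exact hxy⟩)
  have e : (fun Z : (Fin a → P) × (Fin b → P) => finrank ℂ (Ker Φ Z.1 Z.2) ≤ k) =
      fun Z => finrank ℂ (LinearMap.ker (RES_B Φ Z)) ≤ k := by
    funext Z
    rw [RES_ker]
  rw [e]
  exact this

theorem RES_and (hGAL : GAL_stmt) {W : Type} [AddCommGroup W] [Module ℂ W] (C C' : W → Prop)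
    (h : Gen C) (h' : Gen C') : Gen (fun Z => C Z ∧ C' Z) := by
  have h1 := hGAL (I := Bool) (fun i => if i then C else C') (by
    intro i
    cases i
    · exact h'
    · exact h)
  have e : (fun Z => ∀ i : Bool, (if i then C else C') Z) = fun Z => C Z ∧ C' Z := by
    funext Z
    apply propext
    constructor
    · intro h
      exact ⟨h true, h false⟩
    · rintro ⟨h1, h2⟩ i
      cases i
      · exact h2
      · exact h1
  rw [e] at h1
  exact h1

end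

theorem RES (hPTH : PTH_stmt) (hPH0 : PH0_stmt) (hSMP : SMP_stmt) (hGKR : GKR_stmt)
    (hGAL : GAL_stmt) (hGPB : GPB_stmt) (hPLY : PLY_stmt) (hRST : RST_stmt) : RES_stmt := by
  intro ι κ _ _ _ _ c z d r δ u hcol hk hd h0 h1 h2
  have e1 := hPTH c z d r δ hcol hk hd h0 h2
  rw [hPH0] at e1
  obtain ⟨-, hL, hL1⟩ := hPLY (ι := ι) (κ := κ)
  obtain ⟨k₀, hk₀⟩ := hk
  set A := Finset.univ.erase z with hA
  -- generic configurations
  have g1 : Gen (fun Z : (Fin r → ι → ℂ) × (Fin δ → ι → ℂ) =>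
      finrank ℂ (Ker (Phi c A Finset.univ d) Z.1 Z.2) ≤ dmin (Phi c A Finset.univ d) r δ) := by
    refine RES_gen hGKR _ (hL c A Finset.univ d) _ ?_
    obtain ⟨x, y, hxy⟩ := exists_dmin (Phi c A Finset.univ d) r δ
    exact ⟨x, y, hxy.le⟩
  have g2 : Gen (fun Z : (Fin r → ι → ℂ) × (Fin δ → ι → ℂ) =>
      finrank ℂ (Ker (Phi1 c Finset.univ (low d (c z))) (0 : Fin 0 → ι → ℂ) Z.1) ≤ 0) := by
    have h3 : Gen (fun Z : (Fin 0 → ι → ℂ) × (Fin r → ι → ℂ) =>
        finrank ℂ (Ker (Phi1 c Finset.univ (low d (c z))) Z.1 Z.2) ≤ 0) := by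
      refine RES_gen hGKR _ (hL1 c Finset.univ (low d (c z))) _ ?_
      obtain ⟨x, y, hxy⟩ := exists_dmin (Phi1 c Finset.univ (low d (c z))) 0 r
      exact ⟨x, y, by rw [hxy, h0]⟩
    have h4 := hGPB (W := (Fin 0 → ι → ℂ) × (Fin r → ι → ℂ))
      (W' := (Fin r → ι → ℂ) × (Fin δ → ι → ℂ))
      (LinearMap.prod 0 (LinearMap.fst ℂ (Fin r → ι → ℂ) (Fin δ → ι → ℂ)))
      (by
        rintro ⟨x, y⟩
        exact ⟨(y, 0), Prod.ext (Subsingleton.elim _ _) rfl⟩) _ h3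
    exact h4
  have g3 : Gen (fun Z : (Fin r → ι → ℂ) × (Fin δ → ι → ℂ) => ∀ l, Z.1 l z ≠ 0) := by
    refine hGAL (fun l (Z : (Fin r → ι → ℂ) × (Fin δ → ι → ℂ)) => Z.1 l z ≠ 0) fun l => ?_
    refine ⟨⟨(fun _ _ => 1, 0), one_ne_zero⟩, fun Z₀ Z₁ hZ => ?_⟩
    have hp : PolyFun fun t : ℂ => Z₀.1 l z + t * (Z₁.1 l z - Z₀.1 l z) :=
      (PolyFun.const _).add (PolyFun.id.mul (PolyFun.const _))
    have := hp.finite_zeros (t₀ := 0) (by simpa using hZ)
    refine this.subset fun t ht => ?_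
    exact not_not.1 ht
  obtain ⟨⟨⟨s, p⟩, hs1, hs2, hs3⟩, -⟩ := RES_and hGAL _ _ g1 (RES_and hGAL _ _ g2 g3)
  simp only at hs1 hs2 hs3
  -- the space of polynomials
  let Q : Submodule ℂ (MvPolynomial ι ℂ) :=
    (Ker (Phi c A Finset.univ d) s p).map (Sec c Finset.univ d).subtype
  have hQr : finrank ℂ Q ≤ dmin (Phi c A Finset.univ d) r δ := by
    exact le_trans (le_of_eq (Submodule.finrank_map_subtype_eq _ _)) hs1
  have hQ : ∀ g ∈ Q, (∀ w : ι → ℂ, eval (cut A w) g = 0) → g = 0 := by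
    rintro g ⟨g₁, hg₁, rfl⟩ hw
    obtain ⟨hg2, -⟩ := mem_Ker.1 hg₁
    obtain ⟨g', hg', he⟩ := (hRST c z d).1 (g₁ : MvPolynomial ι ℂ) g₁.2 hw
    have hsing : ∀ l i, eval (s l) (pderiv i g') = 0 := by
      intro l
      refine (hRST c z (low d (c z))).2 g' hg' k₀ hk₀ ?_ (s l) (hs3 l) ?_
      · rw [low, Function.update_of_ne hk₀]
        exact hd k₀
      · intro i
        rw [← he]
        have := congrFun (hg2 l) i
        simpa [Phi, gradL_apply] using this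
    have hmem : (⟨g', hg'⟩ : Sec c Finset.univ (low d (c z))) ∈
        Ker (Phi1 c Finset.univ (low d (c z))) (0 : Fin 0 → ι → ℂ) s := by
      rw [mem_Ker]
      refine ⟨fun i => i.elim0, fun l => ?_⟩
      funext i
      have hc : cut Finset.univ (s l) = s l := by
        funext j
        simp [cut]
      simp [Phi1, gradL_apply, hc, hsing l i]
    have hz : Ker (Phi1 c Finset.univ (low d (c z))) (0 : Fin 0 → ι → ℂ) s = ⊥ :=
      Submodule.finrank_eq_zero.1 (Nat.le_zero.1 hs2)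
    rw [hz, Submodule.mem_bot] at hmem
    have hg0 : g' = 0 := congrArg Subtype.val hmem
    show (g₁ : MvPolynomial ι ℂ) = 0
    rw [he, hg0, mul_zero]
  obtain ⟨q, hq⟩ := hSMP A Q hQ u
  refine ⟨q, p, s, ?_⟩
  have hle : Resid c z d q p s ≤ Q ⊓ ⨅ j, LinearMap.ker (evL (cut A (q j))) := by
    intro g hg
    obtain ⟨a1, a2, a3, a4⟩ := mem_Resid.1 hg
    refine ⟨⟨⟨g, a1⟩, ?_, rfl⟩, ?_⟩
    · show (⟨g, a1⟩ : Sec c Finset.univ d) ∈ Ker (Phi c A Finset.univ d) s p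
      rw [mem_Ker]
      refine ⟨fun l => ?_, fun i => ?_⟩
      · funext v
        simp [Phi, gradL_apply, a2 l v]
      · funext v
        by_cases hv : v = z
        · simp [Phi, gradL_apply, hA, hv]
        · simp [Phi, gradL_apply, hA, hv, a4 i v hv]
    · show g ∈ ⨅ j, LinearMap.ker (evL (cut A (q j)))
      rw [Submodule.mem_iInf]
      intro j
      rw [LinearMap.mem_ker, evL_apply]
      exact a3 j
  have hfin := Submodule.finrank_mono hle
  omega

end Pool.Agent.SV
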